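import Pool.Agent.U218.UX.Der

/-! # Automorphisms all of whose cycles on the roots have lengths divisible by `p` -/

set_option autoImplicit false

namespace Pool.Agent.U218.NH

open Polynomial

theorem exists_sigma {K : Type} [Field K] [CharZero K] (f : K[X]) (hf : Irreducible f)
    (p s r : ℕ) (hp : p.Prime) (hdeg : f.natDegree = p ^ s) (hs : 1 ≤ s) (hr : r < p) :
    ∃ σ : AlgebraicClosure K ≃ₐ[K] AlgebraicClosure K, ∀ θ : AlgebraicClosure K,
      aeval θ f = 0 → ∀ m j : ℕ, 1 ≤ j → j ≤ r → (σ ^ (m * j)) θ = θ → p ∣ m := by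
  classical
  have hfac : (p ^ s).factorial ≠ 0 := Nat.factorial_ne_zero _
  obtain ⟨e, m', hm', hem⟩ := Nat.exists_eq_pow_mul_and_not_dvd hfac p hp.ne_one
  have h2 : 2 ≤ f.natDegree := by
    rw [hdeg]
    calc 2 ≤ p := hp.two_le
      _ = p ^ 1 := (pow_one p).symm
      _ ≤ p ^ s := Nat.pow_le_pow_right hp.pos hs
  obtain ⟨σ, hσ⟩ := Pool.Agent.U218.UX.exists_pow_derangement f hf p s m' hp hdeg h2 hm'
  refine ⟨σ, fun θ hθ m j hj1 hjr h => ?_⟩
  have hf0 : f ≠ 0 := hf.ne_zero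
  have hroot : ∀ k : ℕ, (σ ^ k) θ ∈ (f.map (algebraMap K (AlgebraicClosure K))).roots.toFinset := by
    intro k
    rw [Multiset.mem_toFinset, mem_roots ((Polynomial.map_ne_zero_iff
      (algebraMap K (AlgebraicClosure K)).injective).2 hf0), IsRoot, eval_map_algebraMap]
    have h1 : aeval ((σ ^ k) θ) f = (σ ^ k) (aeval θ f) :=
      Polynomial.aeval_algHom_apply ((σ ^ k : AlgebraicClosure K ≃ₐ[K] AlgebraicClosure K) :
        AlgebraicClosure K →ₐ[K] AlgebraicClosure K) θ f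
    rw [h1, hθ, map_zero]
  have hiter : ∀ k : ℕ, (⇑σ)^[k] θ = (σ ^ k) θ := by
    intro k
    induction k with
    | zero => rfl
    | succ k ih => rw [Function.iterate_succ_apply', ih, pow_succ', AlgEquiv.mul_apply]
  -- a period of length at most `p ^ s`
  obtain ⟨k, hk1, hk2, hk⟩ : ∃ k : ℕ, 1 ≤ k ∧ k ≤ p ^ s ∧ (σ ^ k) θ = θ := by
    have hcard : (f.map (algebraMap K (AlgebraicClosure K))).roots.toFinset.card <
        (Finset.range (p ^ s + 1)).card := by
      rw [Finset.card_range]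
      refine Nat.lt_succ_of_le ((Multiset.toFinset_card_le _).trans ((card_roots' _).trans ?_))
      rw [natDegree_map, hdeg]
    obtain ⟨i, hi, j, hj, hij, he⟩ := Finset.exists_ne_map_eq_of_card_lt_of_maps_to hcard
      (f := fun k => (σ ^ k) θ) (fun k _ => hroot k)
    rw [Finset.mem_range] at hi hj
    have key : ∀ i j : ℕ, i < j → j < p ^ s + 1 → (σ ^ i) θ = (σ ^ j) θ →
        ∃ k : ℕ, 1 ≤ k ∧ k ≤ p ^ s ∧ (σ ^ k) θ = θ := by
      intro i j hij hj he
      refine ⟨j - i, by omega, by omega, ?_⟩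
      apply (σ ^ i).injective
      rw [← AlgEquiv.mul_apply, ← pow_add, Nat.add_sub_cancel' hij.le, he]
    rcases Nat.lt_or_gt_of_ne hij with h1 | h1
    · exact key i j h1 hj he
    · exact key j i h1 hi he.symm
  set o := Function.minimalPeriod σ θ with ho
  have hdvd : ∀ k : ℕ, (σ ^ k) θ = θ ↔ o ∣ k := by
    intro k
    rw [← hiter]
    exact Function.isPeriodicPt_iff_minimalPeriod_dvd
  have hok : o ∣ k := (hdvd k).1 hk
  have hole : o ≤ p ^ s := (Nat.le_of_dvd (by omega) hok).trans hk2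
  have ho0 : 0 < o := Nat.pos_of_dvd_of_pos hok (by omega)
  have hofac : o ∣ (p ^ s).factorial := Nat.dvd_factorial ho0 hole
  have hpo : p ∣ o := by
    by_contra hpo
    have h1 : Nat.Coprime o (p ^ e) := ((Nat.Prime.coprime_iff_not_dvd hp).2 hpo).symm.pow_right e
    rw [hem] at hofac
    have h3 : o ∣ m' := h1.dvd_of_dvd_mul_left hofac
    exact hσ θ hθ ((hdvd m').2 h3)
  have h4 : p ∣ m * j := hpo.trans ((hdvd _).1 h)
  rcases (Nat.Prime.dvd_mul hp).1 h4 with h5 | h5
  · exact h5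
  · exact absurd (Nat.le_of_dvd (by omega) h5) (by omega)

end Pool.Agent.U218.NH
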