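import Pool.Agent.U218.UX.D1d
import Pool.Agent.U218.NH.D1c

/-! Many primes modulo which the Frobenius permutes the roots of a polynomial as a given automorphism
(after part D1d of helper723). -/

set_option autoImplicit false

namespace Pool.Agent.U218.NH

open Polynomial NumberField IsDedekindDomain
open Pool.Agent.W401.Cheb
open Pool.Agent.W723.SecC (nz absNorm_ker sep_int frobSet count many diverge)
open Pool.Agent.U218.UX (eq_of_ker)

universe u

/-- if `g` has a root in the extension of degree `n` of the residue field at `v`, then `σ ^ n` fixes a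
root of `g` -/
def RootsLift {K : Type u} [Field K] [NumberField K]
    (σ : AlgebraicClosure K ≃ₐ[K] AlgebraicClosure K) (v : HeightOneSpectrum (𝓞 K))
    (g : (𝓞 K)[X]) : Prop :=
  ∀ (n : ℕ) (k' : Type) [Field k'] (j : 𝓞 K →+* k') (r : k'), RingHom.ker j = v.asIdeal →
    r ^ (Ideal.absNorm v.asIdeal ^ n) = r → g.eval₂ j r = 0 →
      ∃ θ : AlgebraicClosure K, aeval θ (g.map (algebraMap (𝓞 K) K)) = 0 ∧ (σ ^ n) θ = θ

/-- many primes whose Frobenius permutes the roots of a polynomial as a given automorphism -/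
theorem partD1 (K : Type u) [Field K] [NumberField K] (g : (𝓞 K)[X]) (c : 𝓞 K)
    (hc : c ≠ 0) (hsep : (g.map (algebraMap (𝓞 K) K)).Separable)
    (σ : AlgebraicClosure K ≃ₐ[K] AlgebraicClosure K)
    (ε : ℝ) (hε : 0 < ε) : ∃ T : Finset (HeightOneSpectrum (𝓞 K)),
      (∀ v ∈ T, c ∉ v.asIdeal ∧ (2 : 𝓞 K) ∉ v.asIdeal ∧ g.leadingCoeff ∉ v.asIdeal ∧
        (g.map (Ideal.Quotient.mk v.asIdeal)).Separable ∧
        RootsLift σ v g) ∧
      ∏ v ∈ T, (1 - (1 / (Ideal.absNorm v.asIdeal : ℝ) - 1 / (Ideal.absNorm v.asIdeal : ℝ) ^ 2)) <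
        ε := by
  classical
  obtain ⟨L, _, _, _, i, τ, hτi, hτθ, hspl⟩ :=
    exists_L K (g.map (algebraMap (𝓞 K) K)) hsep.ne_zero σ
  let iO : 𝓞 K →+* 𝓞 L := RingOfIntegers.mapRingHom i
  have hiO : ∀ x, ((iO x : 𝓞 L) : L) = i x := fun x => rfl
  have hiinj : Function.Injective iO := by
    intro x y hxy
    have h1 : (iO x : L) = iO y := by rw [hxy]
    rw [hiO, hiO] at h1
    exact RingOfIntegers.coe_injective (i.injective h1)
  have hsmul : ∀ x : 𝓞 L, ((τ • x : 𝓞 L) : L) = τ x := fun x => rfl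
  have hτO : ∀ x, τ • (iO x) = iO x := by
    intro x
    apply RingOfIntegers.ext
    rw [hsmul, hiO, hτi]
  obtain ⟨u, w, D, hD, huw⟩ := sep_int K g hsep
  have hg0 : g ≠ 0 := by
    rintro rfl
    exact hsep.ne_zero (Polynomial.map_zero _)
  set lc := g.leadingCoeff with hlc
  have hlc0 : lc ≠ 0 := leadingCoeff_ne_zero.mpr hg0
  -- the image of `g` over `L`
  set gL : L[X] := (g.map (algebraMap (𝓞 K) K)).map i with hgL
  have hgL0 : gL ≠ 0 := by
    rw [hgL, Ne, Polynomial.map_eq_zero]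
    exact hsep.ne_zero
  have hgLeval : ∀ a : 𝓞 K, gL.eval (i a) = i (g.eval a : 𝓞 K) := by
    intro a
    rw [hgL, Polynomial.map_map, eval_map]
    have h1 := Polynomial.hom_eval₂ g (RingHom.id (𝓞 K)) (i.comp (algebraMap (𝓞 K) K)) a
    rw [RingHom.comp_id] at h1
    exact h1.symm
  have hgLlc : gL.leadingCoeff = i (lc : K) := by
    rw [hgL, leadingCoeff_map, leadingCoeff_map_of_injective
      (FaithfulSMul.algebraMap_injective (𝓞 K) K)]
  have hroot : ∀ θ ∈ gL.roots, gL.eval θ = 0 := fun θ hθ => (mem_roots hgL0).mp hθ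
  have hint : ∀ θ ∈ gL.roots, IsIntegral ℤ (i (lc : K) * θ) := by
    intro θ hθ
    have h1 : (i.comp (algebraMap (𝓞 K) K)).IsIntegralElem
        ((i.comp (algebraMap (𝓞 K) K)) lc * θ) := by
      refine (i.comp (algebraMap (𝓞 K) K)).isIntegralElem_leadingCoeff_mul g θ ?_
      have h2 := hroot θ hθ
      rw [hgL, Polynomial.map_map, eval_map] at h2
      exact h2
    let _ : Algebra (𝓞 K) L := (i.comp (algebraMap (𝓞 K) K)).toAlgebra
    exact isIntegral_trans (R := ℤ) (A := 𝓞 K) _ h1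
  have hηex : ∀ θ : L, ∃ y : 𝓞 L, θ ∈ gL.roots → ((y : 𝓞 L) : L) = i (lc : K) * θ := by
    intro θ
    by_cases hθ : θ ∈ gL.roots
    · exact ⟨⟨_, hint θ hθ⟩, fun _ => rfl⟩
    · exact ⟨0, fun h => absurd h hθ⟩
  choose η hη using hηex
  have hτin : ∀ (l : ℕ) (x : K), (τ ^ l) (i x) = i x := by
    intro l x
    induction l with
    | zero => rfl
    | succ l ih => rw [pow_succ, AlgEquiv.mul_apply, hτi, ih]
  have hδ : ∀ (n : ℕ), ∀ θ ∈ gL.roots, (τ ^ n) • (η θ) - η θ = 0 → (τ ^ n) θ = θ := by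
    intro n θ hθ h0
    have h1 : (((τ ^ n) • (η θ) - η θ : 𝓞 L) : L) = 0 := by rw [h0]; rfl
    have h2 : (((τ ^ n) • (η θ) - η θ : 𝓞 L) : L) = i (lc : K) * ((τ ^ n) θ - θ) := by
      have h3 : (((τ ^ n) • (η θ) - η θ : 𝓞 L) : L) = (τ ^ n) (η θ) - η θ := rfl
      rw [h3, hη θ hθ, map_mul, hτin]
      ring
    rw [h2, mul_eq_zero] at h1
    rcases h1 with h1 | h1
    · exfalso
      apply hlc0
      apply RingOfIntegers.coe_injective
      apply i.injective
      rw [h1]
      simp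
    · exact sub_eq_zero.mp h1
  have hfinite : Finite (L ≃ₐ[ℚ] L) := inferInstance
  have hord : 0 < orderOf τ := orderOf_pos τ
  -- the bad primes
  have hE1 : iO (c * 2 * lc * D) ≠ 0 := by
    rw [Ne, map_eq_zero_iff iO hiinj]
    exact mul_ne_zero (mul_ne_zero (mul_ne_zero hc two_ne_zero) hlc0) hD
  obtain ⟨m1, hm1, hm1'⟩ := nz L _ hE1
  let δ' : {n // n ∈ Finset.range (orderOf τ)} × {θ // θ ∈ gL.roots.toFinset} → 𝓞 L := fun θ =>
    if (τ ^ θ.1.1) • (η θ.2.1) - η θ.2.1 = 0 then 1 else (τ ^ θ.1.1) • (η θ.2.1) - η θ.2.1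
  have hδ' : ∀ θ, δ' θ ≠ 0 := by
    intro θ
    by_cases h : (τ ^ θ.1.1) • (η θ.2.1) - η θ.2.1 = 0
    · change (if _ then _ else _) ≠ _
      rw [if_pos h]
      exact one_ne_zero
    · change (if _ then _ else _) ≠ _
      rw [if_neg h]
      exact h
  choose mθ hmθ hmθ' using fun θ : {n // n ∈ Finset.range (orderOf τ)} ×
    {θ // θ ∈ gL.roots.toFinset} => nz L _ (hδ' θ)
  set m : ℕ := m1 * ∏ θ, mθ θ with hm
  have hmpos : 0 < m := Nat.mul_pos hm1 (Finset.prod_pos fun θ _ => hmθ θ)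
  obtain ⟨δ, C', hδpos, hcount⟩ := count L τ m hmpos
  refine many (frobSet L τ m) (fun p hp => hp.1) (diverge _ δ C' hδpos hcount)
    (fun v : HeightOneSpectrum (𝓞 K) => Ideal.absNorm v.asIdeal) _ ?_ ε hε
  intro p hp
  obtain ⟨hpp, hpm, hxp⟩ := hp
  have : Fact p.Prime := ⟨hpp⟩
  have hex : ∃ φ : 𝓞 L →+* AlgebraicClosure (ZMod p), HasFrob p φ τ := by
    unfold xp at hxp
    rw [dif_pos hpp] at hxp
    by_contra h
    push Not at h
    apply hxp
    rw [Nat.card_eq_zero]
    left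
    exact ⟨fun x => h x.1 x.2⟩
  obtain ⟨φ, hφ⟩ := hex
  have hcast : ∀ n : ℕ, n ∣ m → (n : AlgebraicClosure (ZMod p)) ≠ 0 := by
    intro n hn h
    rw [CharP.cast_eq_zero_iff (AlgebraicClosure (ZMod p)) p] at h
    exact hpm (h.trans hn)
  have hφE1 : φ (iO (c * 2 * lc * D)) ≠ 0 := hm1' _ φ (hcast m1 (Dvd.intro _ rfl))
  have hφn : ∀ (l : ℕ) (x : 𝓞 L), φ ((τ ^ l) • x) = φ x ^ (p ^ l) := by
    intro l
    induction l with
    | zero => intro x; simp
    | succ l ih =>
      intro x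
      rw [pow_succ, mul_smul, ih, hφ x, ← pow_mul, pow_succ, mul_comm p]
  have hφθ : ∀ (n : ℕ), ∀ θ ∈ gL.roots, φ ((τ ^ n) • (η θ) - η θ) = 0 → (τ ^ n) θ = θ := by
    intro n θ hθ h0
    have hθ' : θ ∈ gL.roots.toFinset := Multiset.mem_toFinset.mpr hθ
    rw [← pow_mod_orderOf τ n] at h0 ⊢
    have hn' : n % orderOf τ ∈ Finset.range (orderOf τ) := Finset.mem_range.2 (Nat.mod_lt _ hord)
    apply hδ _ θ hθ
    by_contra hne
    refine hmθ' ⟨⟨_, hn'⟩, ⟨θ, hθ'⟩⟩ _ φ (hcast _ ?_) ?_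
    · exact (Finset.dvd_prod_of_mem mθ (Finset.mem_univ _)).trans (Dvd.intro_left _ rfl)
    · change φ (if _ then _ else _) = 0
      rw [if_neg hne]
      exact h0
  let ψ : 𝓞 K →+* AlgebraicClosure (ZMod p) := φ.comp iO
  have hψ : ∀ x, ψ x ^ p = ψ x := by
    intro x
    have h1 := hφ (iO x)
    rw [hτO] at h1
    exact h1.symm
  have hnorm := absNorm_ker K p (AlgebraicClosure (ZMod p)) ψ hψ
  have hmem : ∀ x, x ∈ RingHom.ker ψ ↔ φ (iO x) = 0 := fun x => RingHom.mem_ker
  have hprime : (RingHom.ker ψ).IsPrime := RingHom.ker_isPrime ψ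
  have hbot : RingHom.ker ψ ≠ ⊥ := by
    intro h
    rw [h, Ideal.absNorm_bot] at hnorm
    exact hpp.ne_zero hnorm.symm
  have hmax : (RingHom.ker ψ).IsMaximal := hprime.isMaximal hbot
  have hφ4 : φ (iO c) ≠ 0 ∧ φ (iO 2) ≠ 0 ∧ φ (iO lc) ≠ 0 ∧ φ (iO D) ≠ 0 := by
    rw [map_mul, map_mul, map_mul, map_mul, map_mul, map_mul] at hφE1
    refine ⟨?_, ?_, ?_, ?_⟩ <;> intro h <;> apply hφE1 <;> rw [h] <;> ring
  obtain ⟨h4c, h42, h4lc, h4D⟩ := hφ4
  refine ⟨⟨RingHom.ker ψ, hprime, hbot⟩, ⟨?_, ?_, ?_, ?_, ?_⟩, hnorm⟩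
  · exact fun h => h4c ((hmem _).mp h)
  · exact fun h => h42 ((hmem _).mp h)
  · exact fun h => h4lc ((hmem _).mp h)
  · obtain ⟨y, hy⟩ : ∃ y : 𝓞 K, (Ideal.Quotient.mk (RingHom.ker ψ)) (y * D) = 1 := by
      obtain ⟨y, z, hz, hy⟩ := hmax.exists_inv (fun h => h4D ((hmem _).mp h))
      refine ⟨y, ?_⟩
      have h6 := congrArg (Ideal.Quotient.mk (RingHom.ker ψ)) hy
      rw [map_add, Ideal.Quotient.eq_zero_iff_mem.mpr hz, add_zero, map_one] at h6
      exact h6
    refine ⟨C (Ideal.Quotient.mk _ y) * u.map (Ideal.Quotient.mk _),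
      C (Ideal.Quotient.mk _ y) * w.map (Ideal.Quotient.mk _), ?_⟩
    have h5 := congrArg (Polynomial.map (Ideal.Quotient.mk (RingHom.ker ψ))) huw
    rw [Polynomial.map_add, Polynomial.map_mul, Polynomial.map_mul, map_C] at h5
    rw [derivative_map, mul_assoc, mul_assoc, ← mul_add, h5, ← C_mul, ← map_mul, hy, C_1]
  · intro n k' _ j r hker hr h0
    change RingHom.ker j = RingHom.ker ψ at hker
    change r ^ (Ideal.absNorm (RingHom.ker ψ) ^ n) = r at hr
    rw [hnorm] at hr
    have hcp : CharP k' p := by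
      have h1 : j (p : 𝓞 K) = 0 := by
        rw [← RingHom.mem_ker, hker, RingHom.mem_ker, map_natCast, CharP.cast_eq_zero]
      rw [map_natCast] at h1
      obtain ⟨q, hq⟩ := CharP.exists k'
      have h2 := (CharP.cast_eq_zero_iff k' q p).1 h1
      rcases (Nat.dvd_prime hpp).1 h2 with h3 | h3
      · exact absurd h3 (CharP.char_ne_one k' q)
      · exact h3 ▸ hq
    have hcp2 : CharP (AlgebraicClosure k') p :=
      (RingHom.charP_iff (algebraMap k' (AlgebraicClosure k')) (algebraMap k' _).injective p).1 hcp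
    let _ : Algebra (ZMod p) (AlgebraicClosure k') := ZMod.algebra _ p
    let ι : AlgebraicClosure (ZMod p) →ₐ[ZMod p] AlgebraicClosure k' := IsAlgClosed.lift
    let Φ : 𝓞 L →+* AlgebraicClosure k' := (ι : AlgebraicClosure (ZMod p) →+* _).comp φ
    have hΦ : ∀ x, Φ x = ι (φ x) := fun _ => rfl
    have hκ : ∀ x, algebraMap k' (AlgebraicClosure k') (j x) = Φ (iO x) := fun x =>
      eq_of_ker p ψ hψ (ι : AlgebraicClosure (ZMod p) →+* AlgebraicClosure k') j
        (algebraMap k' (AlgebraicClosure k')) hker x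
    have hfac : gL = C gL.leadingCoeff * (gL.roots.map fun θ => X - C θ).prod :=
      hspl.eq_prod_roots
    -- the factorisation over the ring of integers
    have h2 : C (iO lc) ^ (Multiset.card gL.roots) * g.map iO =
        C (iO lc) * (gL.roots.map fun θ => C (iO lc) * X - C (η θ)).prod := by
      apply Polynomial.map_injective (algebraMap (𝓞 L) L) RingOfIntegers.coe_injective
      have h8 : (algebraMap (𝓞 L) L) (iO lc) = i (lc : K) := rfl
      have h7 : (g.map iO).map (algebraMap (𝓞 L) L) = gL := by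
        rw [hgL, Polynomial.map_map, Polynomial.map_map]
        congr 1
      rw [Polynomial.map_mul, Polynomial.map_pow, map_C, h7, Polynomial.map_mul, map_C, h8,
        Polynomial.map_multiset_prod, Multiset.map_map]
      have h10 : gL.roots.map (Polynomial.map (algebraMap (𝓞 L) L) ∘
          fun θ => C (iO lc) * X - C (η θ)) =
          gL.roots.map (fun θ => C (i (lc : K)) * (X - C θ)) := by
        refine Multiset.map_congr rfl fun θ hθ => ?_
        have h11 := hη θ hθ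
        change Polynomial.map (algebraMap (𝓞 L) L) (C (iO lc) * X - C (η θ)) = _
        rw [Polynomial.map_sub, Polynomial.map_mul, map_C, map_X, map_C, h8]
        change C (i (lc : K)) * X - C ((η θ : 𝓞 L) : L) = _
        rw [h11, C_mul, mul_sub]
      rw [h10, Multiset.prod_map_mul, Multiset.map_const', Multiset.prod_replicate]
      have h12 : gL = C (i (lc : K)) * (gL.roots.map fun θ => X - C θ).prod := by
        rw [hgLlc] at hfac
        exact hfac
      have h13 : C (i (lc : K)) ^ Multiset.card gL.roots * gL =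
          C (i (lc : K)) ^ Multiset.card gL.roots *
            (C (i (lc : K)) * (gL.roots.map fun θ => X - C θ).prod) :=
        congrArg (fun t => C (i (lc : K)) ^ Multiset.card gL.roots * t) h12
      rw [h13]
      ring
    have h3 := congrArg (Polynomial.eval₂ Φ (algebraMap k' (AlgebraicClosure k') r)) h2
    have h4 : Polynomial.eval₂ Φ (algebraMap k' (AlgebraicClosure k') r) (g.map iO) = 0 := by
      rw [Polynomial.eval₂_map]
      have h5 : Φ.comp iO = (algebraMap k' (AlgebraicClosure k')).comp j :=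
        RingHom.ext fun x => (hκ x).symm
      rw [h5, ← Polynomial.hom_eval₂, h0, map_zero]
    rw [Polynomial.eval₂_mul, h4, mul_zero, Polynomial.eval₂_mul, Polynomial.eval₂_C,
      ← Polynomial.coe_eval₂RingHom, map_multiset_prod, Multiset.map_map] at h3
    have hlcΦ : Φ (iO lc) ≠ 0 := by
      rw [hΦ]
      exact (_root_.map_ne_zero ι).2 h4lc
    have h4' := (mul_eq_zero.mp h3.symm).resolve_left hlcΦ
    rw [Multiset.prod_eq_zero_iff, Multiset.mem_map] at h4'
    obtain ⟨θ, hθ, h5⟩ := h4'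
    have h6 : Φ (iO lc) * algebraMap k' (AlgebraicClosure k') r = Φ (η θ) := by
      have h7 : Polynomial.eval₂ Φ (algebraMap k' (AlgebraicClosure k') r)
          (C (iO lc) * X - C (η θ)) = 0 := h5
      rw [Polynomial.eval₂_sub, Polynomial.eval₂_mul, Polynomial.eval₂_C, Polynomial.eval₂_X,
        Polynomial.eval₂_C, sub_eq_zero] at h7
      exact h7
    refine hτθ n θ ?_ (hφθ n θ hθ ?_)
    · have h2 := hroot θ hθ
      rw [hgL, eval_map] at h2
      exact h2
    rw [map_sub, hφn]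
    apply ι.injective
    rw [map_zero, map_sub, map_pow]
    change Φ (η θ) ^ p ^ n - Φ (η θ) = 0
    have h8 : ∀ l : ℕ, Φ (iO lc) ^ p ^ l = Φ (iO lc) := by
      intro l
      induction l with
      | zero => simp
      | succ l ih =>
        have h9 : Φ (iO lc) ^ p = Φ (iO lc) := by
          have := congrArg ι (hψ lc)
          rw [map_pow] at this
          exact this
        rw [pow_succ, pow_mul, ih, h9]
    rw [← h6, mul_pow, h8, ← map_pow, hr, sub_self]

end Pool.Agent.U218.NH
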