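import Pool.Agent.U218.NH.Loc

/-! # Degrees of finite extensions over which a norm form represents an element -/

set_option autoImplicit false
set_option linter.deprecated false

namespace Pool.Agent.U218.NH

open Polynomial IsDedekindDomain WithZero Ideal

/-- elements of value at most one and the residue field -/
theorem val_pow_sub {A B E : Type} [CommRing A] [CommRing B] [IsDedekindDomain B] [Field E]
    [Algebra A B] [Algebra B E] [IsFractionRing B E] (p : Ideal A) [p.IsMaximal] [Finite (A ⧸ p)]
    (w : HeightOneSpectrum B) [w.asIdeal.LiesOver p] [Module.Finite A B] (x : E)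
    (hx : w.valuation E x ≤ 1) :
    w.valuation E (x ^ (Nat.card (A ⧸ p) ^ (inertiaDeg' p w.asIdeal)) - x) < 1 := by
  classical
  obtain ⟨b, hb⟩ := w.exists_valuation_sub_lt_of_integer hx 1
  have hb1 : w.valuation E (algebraMap B E b - x) < 1 := hb
  set N := Nat.card (A ⧸ p) ^ (inertiaDeg' p w.asIdeal) with hN
  have h1 : b ^ N - b ∈ w.asIdeal := by
    have hmax : w.asIdeal.IsMaximal := w.isMaximal
    let _ : Field (A ⧸ p) := Ideal.Quotient.field p
    let _ : Field (B ⧸ w.asIdeal) := Ideal.Quotient.field w.asIdeal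
    have hfin : Module.Finite (A ⧸ p) (B ⧸ w.asIdeal) := inferInstance
    have hfin2 : Finite (B ⧸ w.asIdeal) := Module.finite_of_finite (A ⧸ p)
    have hcard : Nat.card (B ⧸ w.asIdeal) = N := by
      rw [hN, inertiaDeg'_algebraMap]
      exact Module.natCard_eq_pow_finrank (K := A ⧸ p) (V := B ⧸ w.asIdeal)
    let _ : Fintype (B ⧸ w.asIdeal) := Fintype.ofFinite _
    rw [← Ideal.Quotient.eq_zero_iff_mem, map_sub, map_pow, ← hcard, Nat.card_eq_fintype_card,
      FiniteField.pow_card, sub_self]
  have h2 : w.valuation E (algebraMap B E b ^ N - algebraMap B E b) < 1 := by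
    rw [← map_pow, ← map_sub]
    exact (HeightOneSpectrum.valuation_lt_one_iff_mem w _).2 h1
  obtain ⟨y, hy⟩ : ∃ y : E, w.valuation E y ≤ 1 ∧
      x ^ N - algebraMap B E b ^ N = (x - algebraMap B E b) * y := by
    refine ⟨∑ i ∈ Finset.range N, x ^ i * algebraMap B E b ^ (N - 1 - i), ?_, ?_⟩
    · refine Valuation.map_sum_le _ fun i _ => ?_
      rw [map_mul, map_pow, map_pow]
      exact mul_le_one' (pow_le_one' hx _) (pow_le_one' (w.valuation_le_one b) _)
    · rw [mul_comm]
      exact ((Commute.all x (algebraMap B E b)).geom_sum₂_mul N).symm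
  have h3 : x ^ N - x = (x - algebraMap B E b) * y +
      (algebraMap B E b ^ N - algebraMap B E b) + (algebraMap B E b - x) := by
    rw [← hy.2]
    ring
  rw [h3]
  refine (Valuation.map_add _ _ _).trans_lt (max_lt ((Valuation.map_add _ _ _).trans_lt
    (max_lt ?_ h2)) hb1)
  rw [map_mul, Valuation.map_sub_swap]
  exact mul_lt_of_lt_of_le_one hb1 hy.1

/-- **Finite extensions over which the equation `a yⁿ = N(x)` has a solution.** -/
theorem dvd_finrank {A k E : Type} [CommRing A] [IsDedekindDomain A] [Field k] [Algebra A k]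
    [IsFractionRing A k] [Field E] [Algebra k E] [FiniteDimensional k E] [Algebra.IsSeparable k E]
    (v : HeightOneSpectrum A) [Finite (A ⧸ v.asIdeal)] (M r : ℕ) (g : A[X])
    (hlc : g.leadingCoeff ∉ v.asIdeal) (hMd : M ∣ g.natDegree)
    (hroot : ∀ m : ℕ, ∀ j ∈ Finset.Icc 1 r, ∀ (κ : Type) [Field κ] (φ : A →+* κ) (t : κ),
      RingHom.ker φ = v.asIdeal → t ^ (Nat.card (A ⧸ v.asIdeal) ^ (m * j)) = t →
        g.eval₂ φ t = 0 → M ∣ m)
    (a : k) (ha : v.valuation k a = exp (-1)) (x : Fin (r + 1) → E) (hx : x ≠ 0) (y : E) (n : ℕ)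
    (hn : M ∣ n)
    (heq : algebraMap k E a * y ^ n = normForm (g.map ((algebraMap k E).comp (algebraMap A k))) x) :
    M ∣ Module.finrank k E := by
  classical
  have hinjA : Function.Injective (algebraMap A k) := IsFractionRing.injective A k
  let _ : Algebra A E := ((algebraMap k E).comp (algebraMap A k)).toAlgebra
  have : IsScalarTower A k E := IsScalarTower.of_algebraMap_eq fun _ => rfl
  let B := integralClosure A E
  have hB1 : IsFractionRing B E := integralClosure.isFractionRing_of_finite_extension k E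
  have hB2 : IsDedekindDomain B := integralClosure.isDedekindDomain A k E
  have hB3 : Module.Finite A B := IsIntegralClosure.finite A k E B
  have hinjE : Function.Injective (algebraMap A E) :=
    (algebraMap k E).injective.comp hinjA
  have hinjB : Function.Injective (algebraMap A B) := by
    intro x y hxy
    exact hinjE (congrArg (algebraMap B E) hxy)
  have hB4 : FaithfulSMul A B := (faithfulSMul_iff_algebraMap_injective A B).2 hinjB
  have hB5 : Module.IsTorsionFree A B := inferInstance
  have hmaxv : v.asIdeal.IsMaximal := v.isMaximal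
  have hsum := Ideal.sum_ramification_inertia (R := A) B k E (p := v.asIdeal) v.ne_bot
  rw [← hsum]
  refine Finset.dvd_sum fun P hP => ?_
  rw [IsDedekindDomain.mem_primesOverFinset_iff v.ne_bot B] at hP
  obtain ⟨hPp, hPl⟩ := hP
  have hP0 : P ≠ ⊥ := Ideal.ne_bot_of_liesOver_of_ne_bot v.ne_bot P
  let w : HeightOneSpectrum B := ⟨P, hPp, hP0⟩
  have hwl : w.asIdeal.LiesOver v.asIdeal := hPl
  change M ∣ ramificationIdx' v.asIdeal w.asIdeal * inertiaDeg' v.asIdeal w.asIdeal
  set e := ramificationIdx' v.asIdeal w.asIdeal with he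
  set f := inertiaDeg' v.asIdeal w.asIdeal with hf
  by_cases h : ∃ j ∈ Finset.Icc 1 r, ∃ (κ : Type) (_ : Field κ) (φ : A →+* κ) (t : κ),
      RingHom.ker φ = v.asIdeal ∧ t ^ (Nat.card (A ⧸ v.asIdeal) ^ (f * j)) = t ∧
        g.eval₂ φ t = 0
  · obtain ⟨j, hj, κ, _, φ, t, h1, h2, h3⟩ := h
    exact Dvd.dvd.mul_left (hroot f j hj κ φ t h1 h2 h3) _
  · apply Dvd.dvd.mul_right
    have he0 : e ≠ 0 := IsDedekindDomain.ramificationIdx'_ne_zero_of_liesOver w.asIdeal v.ne_bot
    obtain ⟨s, hs⟩ := val_normForm (k := k) v (w.valuation E) e f r he0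
      (fun x => (HeightOneSpectrum.valuation_liesOver (K := k) E v w x).symm)
      (fun x hx => val_pow_sub v.asIdeal w x hx) g hlc (fun j hj κ _ φ t hker ht h0 =>
        h ⟨j, hj, κ, inferInstance, φ, t, hker, ht, h0⟩) x hx
    rw [← heq, map_mul, map_pow, ← HeightOneSpectrum.valuation_liesOver E v w, ← he, ha] at hs
    obtain ⟨b, hb⟩ : ∃ b : ℤ, w.valuation E y ^ n = exp (n * b) := by
      rcases Nat.eq_zero_or_pos n with h0 | h0
      · subst h0
        exact ⟨0, by simp⟩
      · have hy : w.valuation E y ≠ 0 := by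
          intro h
          rw [h, zero_pow h0.ne', mul_zero] at hs
          exact exp_ne_zero hs.symm
        refine ⟨log (w.valuation E y), ?_⟩
        conv_lhs => rw [← exp_log hy]
        rw [← exp_nsmul, nsmul_eq_mul]
    rw [hb, ← exp_nsmul, ← exp_add] at hs
    have h2 := exp_injective hs
    simp only [nsmul_eq_mul] at h2
    have h3 : (M : ℤ) ∣ (e : ℤ) := by
      have h4 : (e : ℤ) = n * b - g.natDegree * s := by linarith
      rw [h4]
      exact dvd_sub (Dvd.dvd.mul_right (by exact_mod_cast hn) _)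
        (Dvd.dvd.mul_right (by exact_mod_cast hMd) _)
    exact_mod_cast h3

end Pool.Agent.U218.NH
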