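import Pool.Agent.W858.SG.Dens
import Pool.Agent.W417.SecC.D2
import Pool.Agent.U218.NH.D1d
import Pool.Agent.U218.NH.Fin

/-! # Density of the norm form equations with solutions only over extensions of degree divisible by
`M` -/

set_option autoImplicit false

namespace Pool.Agent.U218.NH

open Polynomial NumberField IsDedekindDomain WithZero

theorem normForm_C_mul {R : Type*} [CommRing R] [IsDomain R] (f : R[X]) {r : ℕ}
    (x : Fin (r + 1) → R) (c : R) (hc : c ≠ 0) : normForm (C c * f) x = c ^ r * normForm f x := by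
  unfold normForm
  rw [natDegree_C_mul hc, resultant_C_mul_left]

theorem normForm_smul {R : Type*} [CommRing R] (f : R[X]) {r : ℕ}
    (x : Fin (r + 1) → R) (c : R) : normForm f (fun i => c * x i) =
      c ^ f.natDegree * normForm f x := by
  unfold normForm
  rw [← resultant_C_mul_right]
  congr 1
  rw [Finset.mul_sum]
  exact Finset.sum_congr rfl fun i _ => by rw [C_mul, mul_assoc]

/-- solutions only over finite extensions of degree divisible by `M` -/
def Good (M r : ℕ) {K : Type} [Field K] (f : K[X]) (a : K) : Prop :=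
  ∀ (E : Type) [Field E] [Algebra K E] [FiniteDimensional K E] (x : Fin (r + 1) → E), x ≠ 0 →
    ∀ (y : E) (n : ℕ), M ∣ n → algebraMap K E a * y ^ n = normForm (f.map (algebraMap K E)) x →
      M ∣ Module.finrank K E

theorem good_of_val {K : Type} [Field K] [NumberField K] (M r : ℕ) (f : K[X])
    (σ : AlgebraicClosure K ≃ₐ[K] AlgebraicClosure K)
    (hσ : ∀ θ : AlgebraicClosure K, aeval θ f = 0 → ∀ m j : ℕ, 1 ≤ j → j ≤ r →
      (σ ^ (m * j)) θ = θ → M ∣ m)
    (v : HeightOneSpectrum (𝓞 K)) (g : (𝓞 K)[X]) (c : 𝓞 K)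
    (hg : g.map (algebraMap (𝓞 K) K) = C (algebraMap (𝓞 K) K c) * f)
    (hc : c ∉ v.asIdeal) (hlc : g.leadingCoeff ∉ v.asIdeal) (hMd : M ∣ f.natDegree)
    (hroot : RootsLift σ v g) (a : 𝓞 K)
    (ha : v.valuation K (algebraMap (𝓞 K) K a) = exp (-1)) :
    Good M r f (algebraMap (𝓞 K) K a) := by
  intro E _ _ _ x hx y n hn heq
  have hinj : Function.Injective (algebraMap (𝓞 K) K) := IsFractionRing.injective (𝓞 K) K
  have hc0 : c ≠ 0 := by
    rintro rfl
    exact hc v.asIdeal.zero_mem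
  have hcK : algebraMap (𝓞 K) K c ≠ 0 := by
    rw [Ne, map_eq_zero_iff _ hinj]
    exact hc0
  have hfin : Finite (𝓞 K ⧸ v.asIdeal) := Ideal.finiteQuotientOfFreeOfNeBot _ v.ne_bot
  have hnorm : Ideal.absNorm v.asIdeal = Nat.card (𝓞 K ⧸ v.asIdeal) := by
    rw [Ideal.absNorm_apply, Submodule.cardQuot_apply]
  have hdeg : g.natDegree = f.natDegree := by
    rw [← natDegree_map_eq_of_injective hinj g, hg, natDegree_C_mul hcK]
  have h1 : g.map ((algebraMap K E).comp (algebraMap (𝓞 K) K)) =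
      C (algebraMap K E (algebraMap (𝓞 K) K c)) * f.map (algebraMap K E) := by
    rw [← Polynomial.map_map, hg, Polynomial.map_mul, map_C]
  have hcE : algebraMap K E (algebraMap (𝓞 K) K c) ≠ 0 :=
    (_root_.map_ne_zero (algebraMap K E)).2 hcK
  have hVc : v.valuation K (algebraMap (𝓞 K) K c) = 1 :=
    (HeightOneSpectrum.valuation_eq_one_iff_notMem v).2 hc
  refine dvd_finrank (k := K) (E := E) v M r g hlc (by rwa [hdeg]) ?_
    (algebraMap (𝓞 K) K a * algebraMap (𝓞 K) K c ^ r)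
    (by rw [map_mul, map_pow, hVc, one_pow, mul_one, ha]) x hx y n hn ?_
  · intro m j hj κ _ φ t hker ht h0
    rw [← hnorm] at ht
    rw [Finset.mem_Icc] at hj
    obtain ⟨θ, hθ, hθσ⟩ := hroot (m * j) κ φ t hker ht h0
    refine hσ θ ?_ m j hj.1 hj.2 hθσ
    rw [hg, map_mul, aeval_C] at hθ
    exact (mul_eq_zero.1 hθ).resolve_left ((_root_.map_ne_zero _).2 hcK)
  · rw [h1, normForm_C_mul _ _ _ hcE, ← heq, map_mul, map_pow]
    ring

/-- for almost all `a` there are solutions only over finite extensions of degree divisible by `M` -/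
theorem dens {K : Type} [Field K] [NumberField K] (M r : ℕ) (f : K[X])
    (hf : f.Separable) (hMd : M ∣ f.natDegree)
    (σ : AlgebraicClosure K ≃ₐ[K] AlgebraicClosure K)
    (hσ : ∀ θ : AlgebraicClosure K, aeval θ f = 0 → ∀ m j : ℕ, 1 ≤ j → j ≤ r →
      (σ ^ (m * j)) θ = θ → M ∣ m) (ε : ℝ) (hε : 0 < ε) :
    ∃ I : Ideal (𝓞 K), Finite (𝓞 K ⧸ I) ∧
      (Set.ncard ((Ideal.Quotient.mk I) ''
        {a : 𝓞 K | ¬ Good M r f (algebraMap (𝓞 K) K a)}) : ℝ) ≤ ε * Nat.card (𝓞 K ⧸ I) := by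
  classical
  obtain ⟨c, hc, hcf⟩ := IsLocalization.integerNormalization_spec (nonZeroDivisors (𝓞 K)) f
  set g := IsLocalization.integerNormalization (nonZeroDivisors (𝓞 K)) f with hg
  have hc0 : c ≠ 0 := nonZeroDivisors.ne_zero hc
  have hinj : Function.Injective (algebraMap (𝓞 K) K) := IsFractionRing.injective (𝓞 K) K
  have hcK : algebraMap (𝓞 K) K c ≠ 0 := by
    rw [Ne, map_eq_zero_iff _ hinj]
    exact hc0
  have hgf : g.map (algebraMap (𝓞 K) K) = C (algebraMap (𝓞 K) K c) * f := by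
    rw [hcf]
    ext i
    rw [coeff_smul, coeff_C_mul, Algebra.smul_def]
  have hgs : (g.map (algebraMap (𝓞 K) K)).Separable := by
    rw [hgf]
    exact Separable.unit_mul (isUnit_C.2 hcK.isUnit) hf
  obtain ⟨T, hT, hTε⟩ := partD1 K g c hc0 hgs σ ε hε
  set J := ∏ v ∈ T, v.asIdeal ^ 2 with hJ
  have hJ0 : J ≠ ⊥ := Finset.prod_ne_zero_iff.2 fun v _ => pow_ne_zero _ v.ne_bot
  have hfinJ : Finite (𝓞 K ⧸ J) := Ideal.finiteQuotientOfFreeOfNeBot _ hJ0
  refine ⟨J, hfinJ, ?_⟩
  have hD2 := Pool.Agent.W417.SecC.D2.partD2 K T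
    {a : 𝓞 K | ¬ Good M r f (algebraMap (𝓞 K) K a)} (by
      intro a ha v hv hav
      by_contra hy2
      apply ha
      obtain ⟨h1, -, h3, -, h5⟩ := hT v hv
      refine good_of_val M r f σ hσ v g c hgf h1 h3 hMd h5 a ?_
      apply le_antisymm
      · rw [HeightOneSpectrum.valuation_of_algebraMap]
        exact (v.intValuation_le_pow_iff_mem a 1).2 (by rwa [pow_one])
      · by_contra h2
        rw [not_le] at h2
        exact hy2 ((Pool.Agent.W858.SG.val_le_iff v a).1 (Pool.Agent.W858.SG.lt_exp_neg_one _ h2)))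
  exact hD2.trans (mul_le_mul_of_nonneg_right hTε.le (Nat.cast_nonneg _))

end Pool.Agent.U218.NH
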