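import Pool.Agent.W602.GT.Sys

/-! # Cyclic covers branched along hyperplanes in general position are of general type -/

set_option autoImplicit false

open FF Pool.Agent.W603.LV Pool.Agent.W602.GT

namespace Pool.Agent.U218.NH

variable {k K : Type} [Field k] [Field K] [Algebra k K]

/-- the matrix with the rows `X, D_1 X, ..., D_r X` -/
def Wm {r : ℕ} (D : Fin r → Derivation k K K) (X : Fin (r + 1) → K) :
    Matrix (Fin (r + 1)) (Fin (r + 1)) K :=
  Matrix.of (Fin.cons X fun i j => D i (X j))

theorem Wm_zero {r : ℕ} (D : Fin r → Derivation k K K) (X : Fin (r + 1) → K) (j : Fin (r + 1)) :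
    Wm D X 0 j = X j := rfl

theorem Wm_succ {r : ℕ} (D : Fin r → Derivation k K K) (X : Fin (r + 1) → K) (i : Fin r)
    (j : Fin (r + 1)) : Wm D X i.succ j = D i (X j) := rfl

theorem Wm_lin {r : ℕ} (D : Fin r → Derivation k K K) (X : Fin (r + 1) → K)
    (A : Matrix (Fin (r + 1)) (Fin (r + 1)) k) :
    (Wm D fun j => ∑ i, algebraMap k K (A j i) * X i).det =
      (Wm D X).det * algebraMap k K A.det := by
  have h : (Wm D fun j => ∑ i, algebraMap k K (A j i) * X i) =
      Wm D X * (A.map (algebraMap k K)).transpose := by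
    ext i j
    rw [Matrix.mul_apply]
    refine Fin.cases ?_ (fun i => ?_) i
    · simp only [Wm_zero, Matrix.transpose_apply, Matrix.map_apply]
      exact Finset.sum_congr rfl fun l _ => mul_comm _ _
    · simp only [Wm_succ, Matrix.transpose_apply, Matrix.map_apply]
      rw [map_sum]
      refine Finset.sum_congr rfl fun l _ => ?_
      rw [← Algebra.smul_def, Derivation.map_smul, Algebra.smul_def, mul_comm]
  rw [h, Matrix.det_mul, Matrix.det_transpose]
  congr 1
  exact ((algebraMap k K).map_det A).symm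

theorem Wm_scale {r : ℕ} (D : Fin r → Derivation k K K) (X : Fin (r + 1) → K) (c : K)
    (hc : c ≠ 0) : (Wm D fun j => c * X j).det = c ^ (r + 1) * (Wm D X).det := by
  have h : (Wm D fun j => c * X j).det = (c • Wm D X).det := by
    refine Matrix.det_eq_of_forall_row_eq_smul_add_const
      (Fin.cons 0 fun i => D i c / c) 0 rfl ?_
    intro i j
    refine Fin.cases ?_ (fun i => ?_) i
    · simp [Wm_zero]
    · simp only [Wm_succ, Wm_zero, Matrix.smul_apply, smul_eq_mul, Fin.cons_succ,
        Derivation.leibniz]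
      field_simp
  rw [h, Matrix.det_smul, Fintype.card_fin]

theorem Wm_one {r : ℕ} (D : Fin r → Derivation k K K) (u : Fin r → K) :
    (Wm D (Fin.cons 1 u : Fin (r + 1) → K)).det = (Matrix.of fun i j => D i (u j)).det := by
  rw [Matrix.det_succ_column_zero, Fin.sum_univ_succ]
  have h0 : ∀ i : Fin r, Wm D (Fin.cons 1 u : Fin (r + 1) → K) i.succ 0 = 0 := by
    intro i
    rw [Wm_succ, Fin.cons_zero, Derivation.map_one_eq_zero]
  rw [Finset.sum_eq_zero fun i _ => by rw [h0]; ring, add_zero]
  rw [Wm_zero, Fin.cons_zero, Fin.val_zero, pow_zero, one_mul, one_mul]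
  congr 1

/-- `1, t` are linearly independent -/
theorem lin_one {r : ℕ} {t : Fin r → K} (ht : AlgebraicIndependent k t) (c : Fin (r + 1) → k)
    (h : ∑ i, algebraMap k K (c i) * (Fin.cons 1 t : Fin (r + 1) → K) i = 0) : c = 0 := by
  classical
  rw [Fin.sum_univ_succ] at h
  simp only [Fin.cons_zero, Fin.cons_succ, mul_one] at h
  have h1 : MvPolynomial.aeval t (MvPolynomial.C (c 0) +
      ∑ i : Fin r, MvPolynomial.C (c i.succ) * MvPolynomial.X i) = 0 := by
    rw [map_add, map_sum]
    simp only [map_mul, MvPolynomial.aeval_C, MvPolynomial.aeval_X]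
    exact h
  have h2 := (algebraicIndependent_iff.1 ht) _ h1
  funext i
  refine Fin.cases ?_ (fun i => ?_) i
  · have h3 := congrArg (MvPolynomial.coeff 0) h2
    simpa [MvPolynomial.coeff_sum, MvPolynomial.coeff_C_mul, MvPolynomial.coeff_X] using h3
  · have h3 := congrArg (MvPolynomial.coeff (Finsupp.single i 1)) h2
    simp only [MvPolynomial.coeff_add, MvPolynomial.coeff_sum, MvPolynomial.coeff_C_mul,
      MvPolynomial.coeff_X, MvPolynomial.coeff_C, MvPolynomial.coeff_zero] at h3
    rw [if_neg (by
      intro h4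
      have := congrArg (fun f => f i) h4
      simp at this), zero_add, Finset.sum_eq_single i] at h3
    · simpa using h3
    · intro j _ hj
      rw [if_neg, mul_zero]
      intro h4
      exact hj (Finsupp.single_left_injective one_ne_zero h4)
    · intro h4
      exact absurd (Finset.mem_univ i) h4

/-- the determinant of the derivatives of regular elements -/
theorem det_ge [CharZero k] {P : Place k K} {r : ℕ} (D : Fin r → Derivation k K K)
    (hD : ∀ i, DerReg P (D i)) (u : Fin r → K) (hu : ∀ j, u j ≠ 0) (hu0 : ∀ j, 0 ≤ P.ord (u j)) :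
    Ge P 0 (Matrix.of fun i j => D i (u j)).det ∧
      Ge P (∑ j, P.ord (u j) - 1) (Matrix.of fun i j => D i (u j)).det := by
  constructor
  · refine ge_det P _ 0 (fun _ _ => 0) (fun i j => ?_) (fun σ => by simp)
    exact hD i _ (Or.inr (hu0 j))
  · have h : (Matrix.of fun i j => D i (u j)).det =
        (∏ j, u j) * (Matrix.of fun i j => D i (u j) / u j).det := by
      rw [← Matrix.det_mul_row]
      congr 1
      ext i j
      simp only [Matrix.of_apply]
      rw [mul_div_cancel₀ _ (hu j)]
    rw [h]
    have h1 := det_log D hD u hu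
    have h2 : Ge P (∑ j, P.ord (u j)) (∏ j, u j) :=
      Ge.prod Finset.univ u (fun j => P.ord (u j)) fun j _ => ge_ord P _
    have h3 := h2.mul h1
    rwa [← sub_eq_add_neg] at h3

theorem ord_prod {P : Place k K} {ι : Type*} (s : Finset ι) (f : ι → K) (h : ∀ i ∈ s, f i ≠ 0) :
    P.ord (∏ i ∈ s, f i) = ∑ i ∈ s, P.ord (f i) := by
  classical
  induction s using Finset.induction_on with
  | empty => simp [P.ord_one]
  | insert i s hi ih =>
    rw [Finset.prod_insert hi, Finset.sum_insert hi, P.ord_mul (h i (Finset.mem_insert_self _ _))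
      (Finset.prod_ne_zero_iff.2 fun j hj => h j (Finset.mem_insert_of_mem hj)),
      ih fun j hj => h j (Finset.mem_insert_of_mem hj)]

/-- a family of linear forms in general position: choice of coordinates at a place -/
theorem exists_coords {P : Place k K} {r d : ℕ} (ℓ : Fin d → Fin (r + 1) → k)
    (hℓ : ∀ e : Fin (r + 1) → Fin d, Function.Injective e → LinearIndependent k fun j => ℓ (e j))
    (hd : r + 1 ≤ d) (X : Fin (r + 1) → K)
    (hX : ∀ c : Fin (r + 1) → k, ∑ i, algebraMap k K (c i) * X i = 0 → c = 0) :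
    ∃ (lam : ℤ) (e : Fin (r + 1) → Fin d), Function.Injective e ∧
      (∀ i, lam ≤ P.ord (X i)) ∧
      (∀ j, lam ≤ P.ord (∑ i, algebraMap k K (ℓ j i) * X i)) ∧
      P.ord (∑ i, algebraMap k K (ℓ (e 0) i) * X i) = lam ∧
      ∀ j, (∀ i, e i ≠ j) → P.ord (∑ i, algebraMap k K (ℓ j i) * X i) = lam := by
  classical
  set L : Fin d → K := fun j => ∑ i, algebraMap k K (ℓ j i) * X i with hL
  have hX0 : ∀ i, X i ≠ 0 := by
    intro i h
    have h1 := hX (Pi.single i 1) (by
      rw [Finset.sum_eq_single i]
      · simp [h]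
      · intro j _ hj
        simp [Pi.single_eq_of_ne hj]
      · intro h4
        exact absurd (Finset.mem_univ i) h4)
    have h2 := congrFun h1 i
    simp at h2
  have hL0 : ∀ j, L j ≠ 0 := by
    intro j h
    have h1 := hX (ℓ j) h
    -- an injection through `j`
    obtain ⟨e, he, hej⟩ : ∃ e : Fin (r + 1) → Fin d, Function.Injective e ∧ e 0 = j := by
      let e0 : Fin (r + 1) → Fin d := Fin.castLE hd
      refine ⟨fun i => Equiv.swap (e0 0) j (e0 i), ?_, ?_⟩
      · exact (Equiv.injective _).comp (Fin.castLE_injective hd)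
      · exact Equiv.swap_apply_left _ _
    have h2 := (hℓ e he).ne_zero 0
    rw [hej] at h2
    exact h2 h1
  obtain ⟨i0, -, hi0⟩ := Finset.exists_min_image (Finset.univ : Finset (Fin (r + 1)))
    (fun i => P.ord (X i)) ⟨0, Finset.mem_univ _⟩
  set lam := P.ord (X i0) with hlam
  have hmin : ∀ i, lam ≤ P.ord (X i) := fun i => hi0 i (Finset.mem_univ i)
  have hLge : ∀ j, Ge P lam (L j) := by
    intro j
    refine Ge.sum _ _ fun i _ => ?_
    have h1 := (Ge.const (P := P) (ℓ j i)).mul (show Ge P lam (X i) from Or.inr (hmin i))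
    rwa [zero_add] at h1
  have hLlam : ∀ j, lam ≤ P.ord (L j) := fun j => (hLge j).resolve_left (hL0 j)
  set S : Finset (Fin d) := Finset.univ.filter fun j => lam < P.ord (L j) with hS
  have hScard : S.card ≤ r := by
    by_contra hcon
    push Not at hcon
    obtain ⟨T, hTS, hT⟩ := Finset.exists_subset_card_eq (s := S) (n := r + 1) hcon
    let eT : Fin (r + 1) ≃ T := (T.equivFinOfCardEq hT).symm
    let e : Fin (r + 1) → Fin d := fun i => (eT i : Fin d)
    have he : Function.Injective e := Subtype.val_injective.comp eT.injective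
    have heS : ∀ i, lam + 1 ≤ P.ord (L (e i)) := by
      intro i
      have h1 := hTS (eT i).2
      rw [hS, Finset.mem_filter] at h1
      exact h1.2
    let A : Matrix (Fin (r + 1)) (Fin (r + 1)) k := Matrix.of fun j i => ℓ (e j) i
    have hA : IsUnit A := by
      rw [← Matrix.linearIndependent_rows_iff_isUnit]
      exact hℓ e he
    have hAinv : A⁻¹ * A = 1 := Matrix.nonsing_inv_mul A ((Matrix.isUnit_iff_isUnit_det A).1 hA)
    have hXe : ∀ i, X i = ∑ j, algebraMap k K (A⁻¹ i j) * L (e j) := by
      intro i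
      have h1 : ∀ j, L (e j) = ∑ l, algebraMap k K (A j l) * X l := fun j => rfl
      simp only [h1, Finset.mul_sum]
      rw [Finset.sum_comm]
      have h2 : ∀ l, ∑ j, algebraMap k K (A⁻¹ i j) * (algebraMap k K (A j l) * X l) =
          algebraMap k K ((1 : Matrix (Fin (r + 1)) (Fin (r + 1)) k) i l) * X l := by
        intro l
        rw [← hAinv, Matrix.mul_apply, map_sum, Finset.sum_mul]
        exact Finset.sum_congr rfl fun j _ => by rw [map_mul, mul_assoc]
      simp only [h2, Matrix.one_apply]
      rw [Finset.sum_eq_single i]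
      · simp
      · intro l _ hl
        rw [if_neg (Ne.symm hl), map_zero, zero_mul]
      · intro h4
        exact absurd (Finset.mem_univ i) h4
    have h3 : Ge P (lam + 1) (X i0) := by
      rw [hXe i0]
      refine Ge.sum _ _ fun j _ => ?_
      have h1 := (Ge.const (P := P) (A⁻¹ i0 j)).mul
        (show Ge P (lam + 1) (L (e j)) from Or.inr (heS j))
      rwa [zero_add] at h1
    have h4 := h3.resolve_left (hX0 i0)
    omega
  obtain ⟨T, hST, hT⟩ := Finset.exists_superset_card_eq (s := S) (n := r + 1) (by omega)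
    (by rw [Fintype.card_fin]; exact hd)
  obtain ⟨j0, hj0T, hj0S⟩ : ∃ j0 ∈ T, j0 ∉ S := by
    by_contra hcon
    push Not at hcon
    have := Finset.card_le_card (show T ⊆ S from hcon)
    omega
  let eT : Fin (r + 1) ≃ T := (T.equivFinOfCardEq hT).symm
  let i1 : Fin (r + 1) := eT.symm ⟨j0, hj0T⟩
  let e : Fin (r + 1) → Fin d := fun i => (eT (Equiv.swap 0 i1 i) : Fin d)
  have he : Function.Injective e :=
    Subtype.val_injective.comp (eT.injective.comp (Equiv.injective _))
  have he0 : e 0 = j0 := by
    change ((eT (Equiv.swap 0 i1 0) : T) : Fin d) = j0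
    rw [Equiv.swap_apply_left, Equiv.apply_symm_apply]
  have hnS : ∀ j, j ∉ S → P.ord (L j) = lam := by
    intro j hj
    rw [hS, Finset.mem_filter] at hj
    push Not at hj
    exact le_antisymm (hj (Finset.mem_univ _)) (hLlam j)
  refine ⟨lam, e, he, hmin, hLlam, ?_, ?_⟩
  · change P.ord (L (e 0)) = lam
    rw [he0]
    exact hnS j0 hj0S
  · intro j hj
    apply hnS
    intro hjS
    have h1 := hST hjS
    refine hj (Equiv.swap 0 i1 (eT.symm ⟨j, h1⟩)) ?_
    change ((eT (Equiv.swap 0 i1 (Equiv.swap 0 i1 (eT.symm ⟨j, h1⟩))) : T) : Fin d) = j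
    rw [Equiv.swap_apply_self, Equiv.apply_symm_apply]

/-- **Cyclic covers of projective space branched along hyperplanes in general position**, and all
varieties of the same dimension which dominate them, are of general type. -/
theorem general [CharZero k] {r d n δ : ℕ} (ℓ : Fin d → Fin (r + 1) → k)
    (hℓ : ∀ e : Fin (r + 1) → Fin d, Function.Injective e → LinearIndependent k fun j => ℓ (e j))
    (t : Fin r → K) (ht : IsTranscendenceBasis k t) (y : K) (a : k) (ha : a ≠ 0)
    (hn : 0 < n) (hdn : d = n * δ) (hgt : r + 2 ≤ (n - 1) * δ)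
    (hy : algebraMap k K a * y ^ n =
      ∏ j, ∑ i, algebraMap k K (ℓ j i) * (Fin.cons 1 t : Fin (r + 1) → K) i) :
    GeneralType k K r := by
  classical
  have hX := lin_one ht.1
  set X : Fin (r + 1) → K := Fin.cons 1 t with hXdef
  have hd : r + 1 ≤ d := by
    have h1 : (n - 1) * δ ≤ n * δ := Nat.mul_le_mul_right _ (Nat.sub_le _ _)
    omega
  have haK : algebraMap k K a ≠ 0 := (_root_.map_ne_zero _).2 ha
  set L : Fin d → K := fun j => ∑ i, algebraMap k K (ℓ j i) * X i with hL
  have hL0 : ∀ j, L j ≠ 0 := by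
    intro j h
    have h1 := hX (ℓ j) h
    obtain ⟨e, he, hej⟩ : ∃ e : Fin (r + 1) → Fin d, Function.Injective e ∧ e 0 = j := by
      let e0 : Fin (r + 1) → Fin d := Fin.castLE hd
      refine ⟨fun i => Equiv.swap (e0 0) j (e0 i), ?_, ?_⟩
      · exact (Equiv.injective _).comp (Fin.castLE_injective hd)
      · exact Equiv.swap_apply_left _ _
    have h2 := (hℓ e he).ne_zero 0
    rw [hej] at h2
    exact h2 h1
  have hy0 : y ≠ 0 := by
    rintro rfl
    rw [zero_pow hn.ne', mul_zero] at hy
    exact (Finset.prod_ne_zero_iff.2 fun j _ => hL0 j) hy.symm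
  let g : Fin (r + 1) → K := fun j => X j / y ^ (n - 1)
  refine ⟨trdeg_of_basis ht, 1, one_pos, fun j => form t 1 (g j), fun j => form_pluri t 1 (g j),
    ?_, ?_⟩
  · intro P _ j D hD
    obtain ⟨lam, e, he, hlX, hlL, hl0, hlo⟩ := exists_coords (P := P) ℓ hℓ hd X hX
    change ∀ j, lam ≤ P.ord (L j) at hlL
    change P.ord (L (e 0)) = lam at hl0
    change ∀ j, (∀ i, e i ≠ j) → P.ord (L j) = lam at hlo
    have hlam0 : lam ≤ 0 := by
      have h1 := hlX 0
      have h2 : X 0 = 1 := rfl
      rwa [h2, P.ord_one] at h1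
    let u : Fin r → K := fun i => L (e i.succ) / L (e 0)
    have hu0 : ∀ i, u i ≠ 0 := fun i => div_ne_zero (hL0 _) (hL0 _)
    have huo : ∀ i, P.ord (u i) = P.ord (L (e i.succ)) - lam := by
      intro i
      change P.ord (L (e i.succ) / L (e 0)) = _
      rw [P.ord_div (hL0 _) (hL0 _), hl0]
    have hu1 : ∀ i, 0 ≤ P.ord (u i) := by
      intro i
      rw [huo]
      have := hlL (e i.succ)
      omega
    -- the orders
    set s : ℤ := ∑ i, P.ord (u i) with hs
    have hs0 : 0 ≤ s := Finset.sum_nonneg fun i _ => hu1 i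
    have hsum : (n : ℤ) * P.ord y = d * lam + s := by
      have h1 : P.ord (algebraMap k K a * y ^ n) = n * P.ord y := by
        rw [P.ord_mul haK (pow_ne_zero _ hy0), P.ord_const ha, P.ord_pow, zero_add]
      rw [← h1, hy]
      rw [ord_prod Finset.univ L fun j _ => hL0 j]
      have h2 : ∀ j, P.ord (L j) = lam + (P.ord (L j) - lam) := fun j => by ring
      rw [Finset.sum_congr rfl fun j _ => h2 j, Finset.sum_add_distrib, Finset.sum_const,
        Finset.card_univ, Fintype.card_fin, nsmul_eq_mul]
      congr 1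
      rw [← Finset.sum_subset (Finset.subset_univ (Finset.univ.image e)), Finset.sum_image
        (fun x _ y _ h => he h), Fin.sum_univ_succ, hl0, sub_self, zero_add, hs]
      · exact Finset.sum_congr rfl fun i _ => (huo i).symm
      · intro j _ hj
        rw [hlo j fun i hi => hj (Finset.mem_image.2 ⟨i, Finset.mem_univ _, hi⟩), sub_self]
    -- the determinant
    let A : Matrix (Fin (r + 1)) (Fin (r + 1)) k := Matrix.of fun j i => ℓ (e j) i
    have hA : A.det ≠ 0 := by
      have h1 : IsUnit A := by
        rw [← Matrix.linearIndependent_rows_iff_isUnit]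
        exact hℓ e he
      exact ((Matrix.isUnit_iff_isUnit_det A).1 h1).ne_zero
    have hdet : (Matrix.of fun i j => D i (t j)).det * algebraMap k K A.det =
        L (e 0) ^ (r + 1) * (Matrix.of fun i j => D i (u j)).det := by
      rw [← Wm_one D t, ← Wm_lin D _ A, ← Wm_one D u, ← Wm_scale D _ _ (hL0 (e 0))]
      congr 2
      funext j
      change L (e j) = _
      refine Fin.cases ?_ (fun j => ?_) j
      · simp
      · rw [Fin.cons_succ]
        change L (e j.succ) = L (e 0) * (L (e j.succ) / L (e 0))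
        rw [mul_div_cancel₀ _ (hL0 _)]
    have hAK : algebraMap k K A.det ≠ 0 := (_root_.map_ne_zero _).2 hA
    obtain ⟨hg0, hg1⟩ := det_ge D hD u hu0 hu1
    have hdetge : ∀ μ : ℤ, Ge P μ (Matrix.of fun i j => D i (u j)).det →
        Ge P ((r + 1) * lam + μ) (Matrix.of fun i j => D i (t j)).det := by
      intro μ hμ
      apply Ge.of_mul' (h := algebraMap k K A.det) (m := 0) hAK (P.ord_const hA)
      rw [mul_comm (algebraMap k K A.det), hdet, add_zero]
      have h1 := ((ge_ord P (L (e 0))).pow (r + 1)).mul hμ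
      rw [hl0] at h1
      push_cast at h1
      exact h1
    -- the order of the form
    have hkey : ∀ μ : ℤ, Ge P μ (Matrix.of fun i j => D i (u j)).det →
        ((n : ℤ) - 1) * P.ord y ≤ lam + ((r + 1) * lam + μ) →
        Ge P 0 (form t 1 (g j) D) := by
      intro μ hμ hle
      unfold form
      rw [pow_one]
      change Ge P 0 (X j / y ^ (n - 1) * _)
      have h1 : Ge P (lam - P.ord (y ^ (n - 1))) (X j / y ^ (n - 1)) :=
        ge_div (pow_ne_zero _ hy0) (Or.inr (hlX j))
      refine (h1.mul (hdetge μ hμ)).mono ?_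
      rw [P.ord_pow]
      have h2 : ((n - 1 : ℕ) : ℤ) = (n : ℤ) - 1 := by
        rw [Nat.cast_sub hn, Nat.cast_one]
      rw [h2]
      linarith
    have hdn' : (d : ℤ) = n * δ := by exact_mod_cast hdn
    have hgt' : (r : ℤ) + 2 ≤ ((n : ℤ) - 1) * δ := by
      have h2 : ((n - 1 : ℕ) : ℤ) = (n : ℤ) - 1 := by
        rw [Nat.cast_sub hn, Nat.cast_one]
      rw [← h2]
      exact_mod_cast hgt
    have hn' : (0 : ℤ) < n := by exact_mod_cast hn
    set o := P.ord y with ho
    -- `s` is divisible by `n`
    have hsn : s = n * (o - δ * lam) := by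
      rw [hdn'] at hsum
      linear_combination -hsum
    set s' : ℤ := o - δ * lam with hs'
    have hs'0 : 0 ≤ s' := by
      by_contra hcon
      push Not at hcon
      have : s < 0 := by
        rw [hsn]
        exact mul_neg_of_pos_of_neg hn' hcon
      omega
    have hprod : 0 ≤ (((n : ℤ) - 1) * δ - (r + 2)) * (-lam) :=
      mul_nonneg (by linarith) (by linarith)
    rcases eq_or_lt_of_le hs'0 with h0 | h0
    · refine hkey 0 hg0 ?_
      have h1 : o = δ * lam := by
        rw [hs'] at h0
        linarith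
      rw [h1]
      nlinarith
    · refine hkey (s - 1) hg1 ?_
      have h1 : o = δ * lam + s' := by
        rw [hs']
        ring
      rw [h1, hsn]
      nlinarith
  · obtain ⟨D, hD⟩ := exists_dual ht
    have hf : ∀ j, form t 1 (g j) D = g j := fun j => by
      unfold form
      rw [hD, Matrix.det_one, one_pow, mul_one]
    have h0 : g 0 ≠ 0 := div_ne_zero (by change (1 : K) ≠ 0; exact one_ne_zero)
      (pow_ne_zero _ hy0)
    refine ⟨D, by change form t 1 (g 0) D ≠ 0; rw [hf]; exact h0, ?_⟩
    have h1 : (fun i : Fin r => form t 1 (g i.succ) D / form t 1 (g 0) D) = t := by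
      funext i
      rw [hf, hf]
      change (t i / y ^ (n - 1)) / (1 / y ^ (n - 1)) = t i
      have := pow_ne_zero (n - 1) hy0
      field_simp
    change AlgebraicIndependent k (fun i : Fin r => form t 1 (g i.succ) D / form t 1 (g 0) D)
    rw [h1]
    exact ht.1

end Pool.Agent.U218.NH
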