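import Pool.Agent.U218.NH.GT
import Pool.Agent.U218.NH.Dens

/-! # The coverings `a yⁿ = N(x)` are of general type -/

set_option autoImplicit false

namespace Pool.Agent.U218.NH

open Polynomial Pool.Agent.W602.GT

/-- the norm form over a field which contains an algebraically closed field with the coefficients -/
theorem normForm_eq {K Ω F : Type} [Field K] [CharZero K] [Field Ω] [IsAlgClosed Ω] [Algebra K Ω]
    [Field F] [Algebra Ω F] [Algebra K F] [IsScalarTower K Ω F] (r : ℕ) (f : K[X])
    (hf : f.Separable) : ∃ θ : Fin f.natDegree → Ω, Function.Injective θ ∧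
      ∀ x : Fin (r + 1) → F, normForm (f.map (algebraMap K F)) x =
        algebraMap K F f.leadingCoeff ^ r *
          ∏ j, ∑ i : Fin (r + 1), algebraMap Ω F (θ j ^ (i : ℕ)) * x i := by
  classical
  set g := f.map (algebraMap K Ω) with hg
  have hgs : g.Separable := hf.map
  have hnodup : g.roots.Nodup := nodup_roots hgs
  have hdeg : g.natDegree = f.natDegree := natDegree_map_eq_of_injective (algebraMap K Ω).injective f
  have hcard : g.roots.toFinset.card = f.natDegree := by
    rw [Multiset.toFinset_card_of_nodup hnodup, ← hdeg,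
      (IsAlgClosed.splits g).natDegree_eq_card_roots]
  let e : Fin f.natDegree ≃ g.roots.toFinset := (g.roots.toFinset.equivFinOfCardEq hcard).symm
  refine ⟨fun j => (e j : Ω), Subtype.val_injective.comp e.injective, fun x => ?_⟩
  have hmap : f.map (algebraMap K F) = g.map (algebraMap Ω F) := by
    rw [hg, Polynomial.map_map, ← IsScalarTower.algebraMap_eq]
  have hroots : (g.map (algebraMap Ω F)).roots = g.roots.map (algebraMap Ω F) :=
    (IsAlgClosed.splits g).roots_map (algebraMap Ω F)
  rw [normForm_prod _ (by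
    rw [hmap]
    exact (IsAlgClosed.splits g).map _), leadingCoeff_map, hmap, hroots, Multiset.map_map]
  congr 1
  have h1 : (g.roots.map ((fun θ => ∑ i : Fin (r + 1), x i * θ ^ (i : ℕ)) ∘
      (algebraMap Ω F))).prod = ∏ θ ∈ g.roots.toFinset,
        ∑ i : Fin (r + 1), algebraMap Ω F (θ ^ (i : ℕ)) * x i := by
    rw [Finset.prod_eq_multiset_prod, Multiset.toFinset_val, Multiset.dedup_eq_self.2 hnodup]
    congr 1
    refine Multiset.map_congr rfl fun θ _ => ?_
    rw [Function.comp_apply]
    exact Finset.sum_congr rfl fun i _ => by rw [map_pow, mul_comm]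
  rw [h1, ← Finset.prod_coe_sort g.roots.toFinset]
  exact (Fintype.prod_equiv e _ _ fun j => rfl).symm

theorem gt_main {K Ω F : Type} [Field K] [CharZero K] [Field Ω] [IsAlgClosed Ω] [Algebra K Ω]
    [Field F] [Algebra Ω F] [Algebra K F] [IsScalarTower K Ω F] (r n δ : ℕ) (hn : 0 < n) (f : K[X])
    (hf : f.Separable) (hdn : f.natDegree = n * δ) (hgt : r + 2 ≤ (n - 1) * δ) (a : K) (ha : a ≠ 0)
    (x : Fin (r + 1) → F) (hx0 : x 0 ≠ 0)
    (hx : IsTranscendenceBasis Ω fun i : Fin r => x i.succ / x 0) (y : F)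
    (heq : algebraMap K F a * y ^ n = normForm (f.map (algebraMap K F)) x) :
    GeneralType Ω F r := by
  have hcz : CharZero Ω := charZero_of_injective_algebraMap (algebraMap K Ω).injective
  obtain ⟨θ, hθ, hθx⟩ := normForm_eq (K := K) (Ω := Ω) (F := F) r f hf
  set t : Fin r → F := fun i => x i.succ / x 0 with ht
  have hxt : x = fun i => x 0 * (Fin.cons 1 t : Fin (r + 1) → F) i := by
    funext i
    refine Fin.cases ?_ (fun i => ?_) i
    · simp
    · rw [Fin.cons_succ]
      change x i.succ = x 0 * (x i.succ / x 0)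
      rw [mul_div_cancel₀ _ hx0]
  have hlc : f.leadingCoeff ≠ 0 := leadingCoeff_ne_zero.2 hf.ne_zero
  have hlcF : algebraMap K F f.leadingCoeff ≠ 0 := (_root_.map_ne_zero _).2 hlc
  have hdF : (f.map (algebraMap K F)).natDegree = n * δ := by
    rw [natDegree_map, hdn]
  have h1 : algebraMap K F a * y ^ n = x 0 ^ (n * δ) * (algebraMap K F f.leadingCoeff ^ r *
      ∏ j, ∑ i : Fin (r + 1), algebraMap Ω F (θ j ^ (i : ℕ)) *
        (Fin.cons 1 t : Fin (r + 1) → F) i) := by
    have h5 := congrArg (normForm (f.map (algebraMap K F))) hxt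
    rw [normForm_smul, hdF, hθx (Fin.cons 1 t : Fin (r + 1) → F)] at h5
    rw [heq]
    exact h5
  refine general (fun j (i : Fin (r + 1)) => θ j ^ (i : ℕ)) ?_ t hx (y / x 0 ^ δ)
    (algebraMap K Ω (a / f.leadingCoeff ^ r))
    ((_root_.map_ne_zero _).2 (div_ne_zero ha (pow_ne_zero _ hlc))) hn hdn hgt ?_
  · intro e he
    have h2 : LinearIndependent Ω (Matrix.vandermonde fun j => θ (e j)).row := by
      rw [Matrix.linearIndependent_rows_iff_isUnit, Matrix.isUnit_iff_isUnit_det,
        isUnit_iff_ne_zero, Matrix.det_vandermonde_ne_zero_iff]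
      exact hθ.comp he
    exact h2
  · rw [← IsScalarTower.algebraMap_apply, map_div₀, map_pow, div_pow, ← pow_mul, mul_comm δ n]
    have h3 : x 0 ^ (n * δ) ≠ 0 := pow_ne_zero _ hx0
    have h4 : algebraMap K F f.leadingCoeff ^ r ≠ 0 := pow_ne_zero _ hlcF
    rw [div_mul_div_comm, h1]
    field_simp

end Pool.Agent.U218.NH
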