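import Mathlib

/-! # Values of norm forms over valued fields with a small residue field -/

set_option autoImplicit false

namespace Pool.Agent.U218.NH

open Polynomial IsDedekindDomain WithZero

/-- The norm form `c^r ∏ (x_0 + θ x_1 + ... + θ^r x_r)`, the product over the roots `θ` of `f`, with
the leading coefficient `c`: the resultant of `f` and `x_0 + x_1 T + ... + x_r T^r`. -/
noncomputable def normForm {R : Type*} [CommRing R] (f : R[X]) {r : ℕ} (x : Fin (r + 1) → R) : R :=
  resultant f (∑ i : Fin (r + 1), C (x i) * X ^ (i : ℕ)) f.natDegree r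

theorem normForm_map {R S : Type*} [CommRing R] [CommRing S] (φ : R →+* S) (f : R[X])
    (hf : (f.map φ).natDegree = f.natDegree) {r : ℕ} (x : Fin (r + 1) → R) :
    normForm (f.map φ) (fun i => φ (x i)) = φ (normForm f x) := by
  unfold normForm
  rw [hf, ← resultant_map_map]
  congr 1
  simp [Polynomial.map_sum]

theorem normForm_prod {R : Type*} [CommRing R] [IsDomain R] (f : R[X]) (hf : f.Splits) {r : ℕ}
    (x : Fin (r + 1) → R) :
    normForm f x = f.leadingCoeff ^ r *
      (f.roots.map fun θ => ∑ i : Fin (r + 1), x i * θ ^ (i : ℕ)).prod := by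
  unfold normForm
  rw [resultant_eq_prod_eval f _ r ?_ hf]
  · congr 3
    funext θ
    simp [eval_finsetSum]
  · refine natDegree_sum_le_of_forall_le _ _ fun i _ => ?_
    exact (natDegree_C_mul_X_pow_le _ _).trans (by omega)

/-- a root of a polynomial of degree at most `r` over a finite field -/
theorem exists_pow_eq {κ : Type*} [Field κ] (p : ℕ) [Fact p.Prime] [CharP κ p] (s r : ℕ)
    (x : Fin (r + 1) → κ) (hx : x ≠ 0) (hxq : ∀ i, x i ^ (p ^ s) = x i) (θ : κ)
    (h : ∑ i : Fin (r + 1), x i * θ ^ (i : ℕ) = 0) :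
    ∃ j ∈ Finset.Icc 1 r, θ ^ ((p ^ s) ^ j) = θ := by
  classical
  set P : κ[X] := ∑ i : Fin (r + 1), C (x i) * X ^ (i : ℕ) with hP
  have hcoeff : ∀ i : Fin (r + 1), P.coeff i = x i := by
    intro i
    rw [hP, finsetSum_coeff, Finset.sum_eq_single i]
    · simp
    · intro j _ hj
      rw [coeff_C_mul_X_pow, if_neg]
      intro h4
      exact hj (Fin.ext h4.symm)
    · intro h4
      exact absurd (Finset.mem_univ i) h4
  have hP0 : P ≠ 0 := by
    intro h0
    apply hx
    funext i
    rw [← hcoeff i, h0, coeff_zero, Pi.zero_apply]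
  have hdeg : P.natDegree ≤ r := by
    refine natDegree_sum_le_of_forall_le _ _ fun i _ => ?_
    exact (natDegree_C_mul_X_pow_le _ _).trans (by omega)
  have hxj : ∀ (j : ℕ) (i : Fin (r + 1)), x i ^ ((p ^ s) ^ j) = x i := by
    intro j i
    induction j with
    | zero => simp
    | succ j ih => rw [pow_succ, pow_mul, ih, hxq]
  have hroot : ∀ j : ℕ, P.eval (θ ^ ((p ^ s) ^ j)) = 0 := by
    intro j
    have h1 : P.eval (θ ^ ((p ^ s) ^ j)) = (∑ i : Fin (r + 1), x i * θ ^ (i : ℕ)) ^ ((p ^ s) ^ j) := by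
      rw [← pow_mul p, sum_pow_char_pow, hP, eval_finsetSum]
      refine Finset.sum_congr rfl fun i _ => ?_
      rw [eval_mul, eval_C, eval_pow, eval_X, mul_pow, pow_mul p, hxj, ← pow_mul, ← pow_mul,
        ← pow_mul]
      congr 2
      ring
    rw [h1, h, zero_pow]
    exact pow_ne_zero _ (pow_ne_zero _ (Fact.out : p.Prime).ne_zero)
  have hcard : P.roots.toFinset.card < (Finset.range (r + 1)).card := by
    rw [Finset.card_range]
    exact Nat.lt_succ_of_le ((Multiset.toFinset_card_le _).trans ((card_roots' P).trans hdeg))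
  obtain ⟨i, hi, j, hj, hij, he⟩ := Finset.exists_ne_map_eq_of_card_lt_of_maps_to hcard
    (f := fun j => θ ^ ((p ^ s) ^ j)) (fun j _ => by
      rw [Finset.mem_coe, Multiset.mem_toFinset, mem_roots hP0]
      exact hroot j)
  rw [Finset.mem_range] at hi hj
  have key : ∀ i j : ℕ, i < j → j < r + 1 → θ ^ ((p ^ s) ^ i) = θ ^ ((p ^ s) ^ j) →
      ∃ j ∈ Finset.Icc 1 r, θ ^ ((p ^ s) ^ j) = θ := by
    intro i j hij hj he
    refine ⟨j - i, Finset.mem_Icc.2 ⟨by omega, by omega⟩, ?_⟩
    have h1 : (θ ^ ((p ^ s) ^ (j - i))) ^ (p ^ (s * i)) = θ ^ (p ^ (s * i)) := by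
      rw [pow_mul p, ← pow_mul, ← pow_add, Nat.sub_add_cancel hij.le, he]
    exact (iterateFrobenius κ p (s * i)).injective h1
  rcases Nat.lt_or_gt_of_ne hij with h1 | h1
  · exact key i j h1 hj he
  · exact key j i h1 hi he.symm

/-- **The values of the norm form at nonzero vectors** have a valuation divisible by its degree. -/
theorem val_normForm {A k E : Type} [CommRing A] [IsDedekindDomain A] [Field k] [Algebra A k]
    [IsFractionRing A k] [Field E] [Algebra k E] (v : HeightOneSpectrum A)
    [Finite (A ⧸ v.asIdeal)] (V : Valuation E ℤᵐ⁰) (e m r : ℕ) (he : e ≠ 0)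
    (hV : ∀ x : k, V (algebraMap k E x) = v.valuation k x ^ e)
    (hV2 : ∀ x : E, V x ≤ 1 → V (x ^ (Nat.card (A ⧸ v.asIdeal) ^ m) - x) < 1)
    (g : A[X]) (hlc : g.leadingCoeff ∉ v.asIdeal)
    (hroot : ∀ j ∈ Finset.Icc 1 r, ∀ (κ : Type) [Field κ] (φ : A →+* κ) (t : κ),
      RingHom.ker φ = v.asIdeal → t ^ (Nat.card (A ⧸ v.asIdeal) ^ (m * j)) = t →
        g.eval₂ φ t ≠ 0)
    (x : Fin (r + 1) → E) (hx : x ≠ 0) :
    ∃ c : ℤ, V (normForm (g.map ((algebraMap k E).comp (algebraMap A k))) x) =
      exp (g.natDegree * c) := by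
  classical
  let Ω := AlgebraicClosure E
  obtain ⟨O, hO, hloc⟩ := IsLocalRing.exists_factor_valuationRing
    ((algebraMap E Ω).comp V.valuationSubring.subtype)
  set W := O.valuation with hW
  have hW1 : ∀ c : E, V c ≤ 1 → W (algebraMap E Ω c) ≤ 1 := by
    intro c hc
    rw [hW, O.valuation_le_one_iff]
    exact hO ⟨c, hc⟩
  have hW2 : ∀ c : E, V c < 1 → W (algebraMap E Ω c) < 1 := by
    intro c hc
    have h1 : ¬ IsUnit (⟨c, hc.le⟩ : V.valuationSubring) := by
      intro h
      have h2 := (Valuation.Integers.isUnit_iff_valuation_eq_one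
        (Valuation.valuationSubring.integers V)).1 h
      exact hc.ne h2
    rw [← isUnit_map_iff (((algebraMap E Ω).comp
      V.valuationSubring.subtype).codRestrict O.toSubring hO)] at h1
    have h3 := (O.valuation_lt_one_iff (((algebraMap E Ω).comp
      V.valuationSubring.subtype).codRestrict O.toSubring hO ⟨c, hc.le⟩)).1
      ((IsLocalRing.mem_maximalIdeal _).2 h1)
    exact h3
  have hW3 : ∀ c : E, W (algebraMap E Ω c) < 1 → V c < 1 := by
    intro c hc
    by_contra h
    rw [not_lt] at h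
    have hc0 : c ≠ 0 := by
      rintro rfl
      rw [map_zero] at h
      exact absurd h (not_le.2 zero_lt_one)
    have h1 : V c⁻¹ ≤ 1 := by
      rw [map_inv₀]
      exact inv_le_one_of_one_le₀ h
    have h2 := hW1 _ h1
    rw [map_inv₀, map_inv₀] at h2
    have h3 : W (algebraMap E Ω c) ≠ 0 := by
      rw [Valuation.ne_zero_iff]
      exact (_root_.map_ne_zero (algebraMap E Ω)).2 hc0
    exact absurd h2 (not_le.2 ((one_lt_inv₀ (zero_lt_iff.2 h3)).2 hc))
  have hW4 : ∀ c : E, W (algebraMap E Ω c) = 1 → V c = 1 := by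
    intro c hc
    have hc0 : c ≠ 0 := by
      rintro rfl
      rw [map_zero, map_zero] at hc
      exact zero_ne_one hc
    apply le_antisymm
    · by_contra h
      rw [not_le] at h
      have h1 : V c⁻¹ < 1 := by
        rw [map_inv₀]
        exact inv_lt_one_of_one_lt₀ h
      have h2 := hW2 _ h1
      rw [map_inv₀, map_inv₀, hc, inv_one] at h2
      exact lt_irrefl _ h2
    · by_contra h
      rw [not_le] at h
      exact (hW2 _ h).ne hc
  -- the base ring
  have hA1 : ∀ a : A, V (algebraMap k E (algebraMap A k a)) ≤ 1 := by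
    intro a
    rw [hV]
    exact pow_le_one' (v.valuation_le_one a) e
  have hA2 : ∀ a : A, V (algebraMap k E (algebraMap A k a)) < 1 ↔ a ∈ v.asIdeal := by
    intro a
    rw [hV, ← v.valuation_lt_one_iff_mem (K := k)]
    constructor
    · intro h
      by_contra h1
      rw [not_lt] at h1
      exact absurd h (not_lt.2 (one_le_pow₀ h1))
    · intro h
      exact pow_lt_one₀ zero_le h he
  let αE : A →+* E := (algebraMap k E).comp (algebraMap A k)
  let α : A →+* Ω := (algebraMap E Ω).comp αE
  have hαO : ∀ a, α a ∈ O := fun a => (O.valuation_le_one_iff _).1 (hW1 _ (hA1 a))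
  let ρ : A →+* O := α.codRestrict O.toSubring hαO
  let κ := IsLocalRing.ResidueField O
  let φ : A →+* κ := (IsLocalRing.residue O).comp ρ
  have hres : ∀ z : O, IsLocalRing.residue O z = 0 ↔ W (z : Ω) < 1 := by
    intro z
    rw [IsLocalRing.residue_eq_zero_iff, O.valuation_lt_one_iff]
  have hker : RingHom.ker φ = v.asIdeal := by
    ext a
    rw [RingHom.mem_ker, ← hA2]
    change IsLocalRing.residue O (ρ a) = 0 ↔ _
    rw [hres]
    exact ⟨fun h => hW3 _ h, fun h => hW2 _ h⟩
  -- the characteristic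
  have hmax : v.asIdeal.IsMaximal := v.isMaximal
  let _ : Field (A ⧸ v.asIdeal) := Ideal.Quotient.field v.asIdeal
  let _ : Fintype (A ⧸ v.asIdeal) := Fintype.ofFinite _
  obtain ⟨p, hp⟩ := CharP.exists (A ⧸ v.asIdeal)
  obtain ⟨s, hpp, hcard⟩ := FiniteField.card (A ⧸ v.asIdeal) p
  have hpf : Fact p.Prime := ⟨hpp⟩
  have hcard' : Nat.card (A ⧸ v.asIdeal) = p ^ (s : ℕ) := by
    rw [Nat.card_eq_fintype_card, hcard]
  let φ' : (A ⧸ v.asIdeal) →+* κ := Ideal.Quotient.lift v.asIdeal φ fun a ha => by
    rw [← hker] at ha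
    exact ha
  have hcp : CharP κ p := charP_of_injective_ringHom φ'.injective p
  -- scaling
  obtain ⟨i0, -, hi0⟩ := Finset.exists_max_image (Finset.univ : Finset (Fin (r + 1)))
    (fun i => V (x i)) ⟨0, Finset.mem_univ _⟩
  have hx0 : x i0 ≠ 0 := by
    intro h
    apply hx
    funext i
    have h1 := hi0 i (Finset.mem_univ i)
    rw [h, map_zero, le_zero_iff, Valuation.zero_iff] at h1
    exact h1
  have hVx0 : V (x i0) ≠ 0 := (Valuation.ne_zero_iff V).2 hx0
  let x' : Fin (r + 1) → E := fun i => x i / x i0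
  have hx' : ∀ i, V (x' i) ≤ 1 := by
    intro i
    change V (x i / x i0) ≤ 1
    rw [map_div₀]
    exact div_le_one_of_le₀ (hi0 i (Finset.mem_univ i)) zero_le
  let X' : Fin (r + 1) → O := fun i => ⟨algebraMap E Ω (x' i),
    (O.valuation_le_one_iff _).1 (hW1 _ (hx' i))⟩
  have hX'q : ∀ i, IsLocalRing.residue O (X' i) ^ (p ^ ((s : ℕ) * m)) =
      IsLocalRing.residue O (X' i) := by
    intro i
    rw [← map_pow, ← sub_eq_zero, ← map_sub, hres]
    have h1 := hW2 _ (hV2 (x' i) (hx' i))
    rw [hcard', ← pow_mul, map_sub, map_pow] at h1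
    exact h1
  have hX'0 : (fun i => IsLocalRing.residue O (X' i)) ≠ 0 := by
    intro h
    have h1 := congrFun h i0
    have h2 : X' i0 = 1 := by
      apply Subtype.ext
      change algebraMap E Ω (x i0 / x i0) = 1
      rw [div_self hx0, map_one]
    simp only [h2, map_one, Pi.zero_apply] at h1
    exact one_ne_zero h1
  -- the roots
  have hαinj : Function.Injective α :=
    (algebraMap E Ω).injective.comp ((algebraMap k E).injective.comp
      (IsFractionRing.injective A k))
  have hlcW : W (α g.leadingCoeff) = 1 := by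
    apply le_antisymm
    · exact hW1 _ (hA1 _)
    · by_contra h
      rw [not_le] at h
      exact hlc ((hA2 _).1 (hW3 _ h))
  have hlc0 : α g.leadingCoeff ≠ 0 := by
    intro h
    rw [h, map_zero] at hlcW
    exact zero_ne_one hlcW
  have hθ : ∀ θ : Ω, (g.map α).eval θ = 0 →
      W (∑ i : Fin (r + 1), algebraMap E Ω (x' i) * θ ^ (i : ℕ)) = 1 := by
    intro θ hθ0
    have hθ1 : g.eval₂ α θ = 0 := by rwa [eval_map] at hθ0
    have hθO : θ ∈ O := by
      have h1 : α.IsIntegralElem (α g.leadingCoeff * θ) :=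
        α.isIntegralElem_leadingCoeff_mul g θ hθ1
      have h2 : IsIntegral O (α g.leadingCoeff * θ) := by
        obtain ⟨P, hP, hP0⟩ := h1
        refine ⟨P.map ρ, hP.map ρ, ?_⟩
        rw [eval₂_map]
        exact hP0
      obtain ⟨z, hz⟩ := IsIntegrallyClosed.isIntegral_iff.1 h2
      rw [← O.valuation_le_one_iff]
      have h3 : W (α g.leadingCoeff * θ) ≤ 1 := by
        rw [← hz, hW, O.valuation_le_one_iff]
        exact z.2
      rwa [map_mul, hlcW, one_mul] at h3
    let θO : O := ⟨θ, hθO⟩
    let z : O := ∑ i : Fin (r + 1), X' i * θO ^ (i : ℕ)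
    have hz : (z : Ω) = ∑ i : Fin (r + 1), algebraMap E Ω (x' i) * θ ^ (i : ℕ) := by
      change O.subtype (∑ i : Fin (r + 1), X' i * θO ^ (i : ℕ)) = _
      rw [map_sum]
      exact Finset.sum_congr rfl fun i _ => by rw [map_mul, map_pow]; rfl
    rw [← hz]
    apply le_antisymm
    · rw [hW, O.valuation_le_one_iff]
      exact z.2
    · by_contra h
      rw [not_le, ← hres] at h
      have h1 : ∑ i : Fin (r + 1), IsLocalRing.residue O (X' i) *
          (IsLocalRing.residue O θO) ^ (i : ℕ) = 0 := by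
        rw [← h]
        change _ = IsLocalRing.residue O (∑ i : Fin (r + 1), X' i * θO ^ (i : ℕ))
        rw [map_sum]
        exact Finset.sum_congr rfl fun i _ => by rw [map_mul, map_pow]
      obtain ⟨j, hj, hje⟩ := exists_pow_eq p ((s : ℕ) * m) r _ hX'0 hX'q _ h1
      refine hroot j hj κ φ (IsLocalRing.residue O θO) hker ?_ ?_
      · rw [hcard', ← pow_mul, ← mul_assoc, pow_mul p]
        exact hje
      · have h2 : g.eval₂ ρ θO = 0 := by
          apply Subtype.val_injective
          have h3 := Polynomial.hom_eval₂ g ρ O.subtype θO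
          exact h3.trans hθ1
        have h3 := Polynomial.hom_eval₂ g ρ (IsLocalRing.residue O) θO
        rw [h2, map_zero] at h3
        exact h3.symm
  -- the norm form
  set N := normForm (g.map αE) x with hN
  have hmapα : (g.map αE).map (algebraMap E Ω) = g.map α := by
    rw [Polynomial.map_map]
  have hWN : W (algebraMap E Ω N) = W (algebraMap E Ω (x i0)) ^ g.natDegree := by
    have h1 : algebraMap E Ω N = normForm (g.map α) (fun i => algebraMap E Ω (x i)) := by
      rw [← hmapα, normForm_map (algebraMap E Ω) (g.map αE)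
        (natDegree_map_eq_of_injective (algebraMap E Ω).injective _)]
    rw [h1, normForm_prod _ (IsAlgClosed.splits _), map_mul, map_pow,
      leadingCoeff_map_of_injective hαinj, hlcW, one_pow, one_mul, map_multiset_prod,
      Multiset.map_map]
    have h2 : ∀ θ ∈ (g.map α).roots, (W ∘ fun θ => ∑ i : Fin (r + 1),
        algebraMap E Ω (x i) * θ ^ (i : ℕ)) θ = W (algebraMap E Ω (x i0)) := by
      intro θ hθr
      have h3 : ∑ i : Fin (r + 1), algebraMap E Ω (x i) * θ ^ (i : ℕ) =
          algebraMap E Ω (x i0) * ∑ i : Fin (r + 1), algebraMap E Ω (x' i) * θ ^ (i : ℕ) := by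
        rw [Finset.mul_sum]
        refine Finset.sum_congr rfl fun i _ => ?_
        rw [← mul_assoc, ← map_mul]
        congr 2
        change x i = x i0 * (x i / x i0)
        rw [mul_div_cancel₀ _ hx0]
      rw [Function.comp_apply, h3, map_mul, hθ θ (isRoot_of_mem_roots hθr), mul_one]
    rw [Multiset.map_congr rfl h2, Multiset.map_const', Multiset.prod_replicate]
    congr 1
    rw [← (IsAlgClosed.splits (g.map α)).natDegree_eq_card_roots,
      natDegree_map_eq_of_injective hαinj]
  have hVN : V (N / x i0 ^ g.natDegree) = 1 := by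
    apply hW4
    rw [map_div₀, map_div₀, hWN, map_pow, map_pow, div_self]
    exact pow_ne_zero _ ((Valuation.ne_zero_iff W).2
      ((_root_.map_ne_zero (algebraMap E Ω)).2 hx0))
  have hVN' : V N = V (x i0) ^ g.natDegree := by
    rw [map_div₀, map_pow] at hVN
    exact (div_eq_one_iff_eq (pow_ne_zero _ hVx0)).1 hVN
  refine ⟨log (V (x i0)), ?_⟩
  rw [hVN']
  conv_lhs => rw [← exp_log hVx0]
  rw [← exp_nsmul, nsmul_eq_mul]

end Pool.Agent.U218.NH
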